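import Pool.Agent.H17Dyn.Dim3Full

/-!
# MP_dae5d3_ag : automorphisms of affine three-space

For every automorphism of `ℂ³` with dynamical degree `lam` and dynamical degree `mu` of the inverse:
`lam` is a weak Perron number; its degree is at most `2`, unless `mu = lam ^ 2`, in which case
`lam ^ 2` has degree at most `2` (and so `lam` has degree at most `4`).
-/

set_option autoImplicit false

namespace Pool.Agent.Results.MP_dae5d3_ag.DimThree

/-- **Dynamical degrees of automorphisms of `ℂ³`.** -/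
theorem result (φ : MvPolynomial (Fin 3) ℂ ≃ₐ[ℂ] MvPolynomial (Fin 3) ℂ) :
    ∃ lam mu : ℝ, 1 ≤ lam ∧ 1 ≤ mu ∧
      Filter.Tendsto
        (fun n : ℕ =>
          ((Finset.univ.sup (fun i : Fin 3 => ((φ ^ n) (MvPolynomial.X i)).totalDegree) : ℕ) : ℝ)
            ^ ((1 : ℝ) / (n : ℝ)))
        Filter.atTop (nhds lam) ∧
      Filter.Tendsto
        (fun n : ℕ =>
          ((Finset.univ.sup (fun i : Fin 3 =>
              ((φ.symm ^ n) (MvPolynomial.X i)).totalDegree) : ℕ) : ℝ)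
            ^ ((1 : ℝ) / (n : ℝ)))
        Filter.atTop (nhds mu) ∧
      IsIntegral ℤ lam ∧ (∀ μ : ℂ, Polynomial.aeval μ (minpoly ℤ lam) = 0 → ‖μ‖ ≤ lam) ∧
      (minpoly ℤ lam).natDegree ≤ 4 ∧
      (mu ≠ lam ^ 2 → (minpoly ℤ lam).natDegree ≤ 2) ∧
      (mu = lam ^ 2 → IsIntegral ℤ (lam ^ 2) ∧ (minpoly ℤ (lam ^ 2)).natDegree ≤ 2) :=
  Pool.Agent.H17Dyn.dim3_full (χ := Complex.ofRealHom.toAddMonoidHom)
    Complex.ofReal_injective φ

end Pool.Agent.Results.MP_dae5d3_ag.DimThree
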