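import Pool.Agent.H17Dyn.Degree

/-!
# MP_dae5d3_ag : eigenvaluations of automorphisms of affine space

If a (logarithmic, possibly not centred anywhere in particular) rank one valuation of the polynomial
ring in `d` variables is nontrivial and is multiplied by a factor `θ ≠ 1` by an automorphism of the
polynomial ring, then `θ` is an algebraic number of degree at most `d - 1`.
-/

set_option autoImplicit false


namespace Pool.Agent.Results.MP_dae5d3_ag.Eigenvaluation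

/-- **Eigenvalues of eigenvaluations have degree at most `d - 1`.** -/
theorem result (d : ℕ) (φ : MvPolynomial (Fin d) ℂ ≃ₐ[ℂ] MvPolynomial (Fin d) ℂ)
    (N : MvPolynomial (Fin d) ℂ → ℝ)
    (hmul : ∀ P Q, P ≠ 0 → Q ≠ 0 → N (P * Q) = N P + N Q)
    (hadd : ∀ P Q, P ≠ 0 → Q ≠ 0 → P + Q ≠ 0 → N (P + Q) ≤ max (N P) (N Q))
    (hconst : ∀ c : ℂ, c ≠ 0 → N (MvPolynomial.C c) = 0)
    (hnontrivial : ∃ P, P ≠ 0 ∧ N P ≠ 0)
    (θ : ℝ) (hθ : θ ≠ 1) (heigen : ∀ P, P ≠ 0 → N (φ P) = θ * N P) :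
    IsAlgebraic ℚ θ ∧ (minpoly ℚ θ).natDegree ≤ d - 1 :=
  Pool.Agent.H17Dyn.eigen_degree φ ⟨hmul, hadd, hconst⟩ hθ heigen hnontrivial

end Pool.Agent.Results.MP_dae5d3_ag.Eigenvaluation
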