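import Pool.Agent.H17Dyn.SmallSecond

/-!
# MP_dae5d3_ag : automorphisms of affine `d`-space with `λ₂ < λ₁²`

For every `d ≥ 2` and every automorphism of `ℂ^d` whose second dynamical degree is smaller than the
square of the first one, the first dynamical degree is a weak Perron number of degree at most
`d - 1`.
-/

set_option autoImplicit false

namespace Pool.Agent.Results.MP_dae5d3_ag.SmallSecond

/-- For the automorphism `f` of `ℂ^d` with comorphism `φ`: the parameters `(u, v)` of the points of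
the plane `a + u b + v c` which `f` maps into the linear space `l₁ = l₂ = 0`. -/
def planeSet {d : ℕ} (φ : MvPolynomial (Fin d) ℂ ≃ₐ[ℂ] MvPolynomial (Fin d) ℂ)
    (a b c : Fin d → ℂ) (l₁ l₂ : MvPolynomial (Fin d) ℂ) : Set (ℂ × ℂ) :=
  {w | MvPolynomial.eval (fun i => a i + w.1 * b i + w.2 * c i) (φ l₁) = 0 ∧
    MvPolynomial.eval (fun i => a i + w.1 * b i + w.2 * c i) (φ l₂) = 0}

/-- The second degree: the largest number of points of a finite intersection of a plane and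
`f⁻¹(l₁ = l₂ = 0)`, where `l₁`, `l₂` have degree at most one. -/
noncomputable def deg2 {d : ℕ} (φ : MvPolynomial (Fin d) ℂ ≃ₐ[ℂ] MvPolynomial (Fin d) ℂ) : ℕ∞ :=
  ⨆ (a : Fin d → ℂ) (b : Fin d → ℂ) (c : Fin d → ℂ) (l₁ : MvPolynomial (Fin d) ℂ)
    (l₂ : MvPolynomial (Fin d) ℂ) (_ : l₁.totalDegree ≤ 1) (_ : l₂.totalDegree ≤ 1)
    (_ : (planeSet φ a b c l₁ l₂).Finite), (planeSet φ a b c l₁ l₂).encard

/-- The second dynamical degree `limsup deg₂(f^n)^(1/n)`. -/
noncomputable def dynDeg2 {d : ℕ} (φ : MvPolynomial (Fin d) ℂ ≃ₐ[ℂ] MvPolynomial (Fin d) ℂ) :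
    ENNReal :=
  Filter.limsup (fun n : ℕ => (deg2 (φ ^ n) : ENNReal) ^ ((1 : ℝ) / (n : ℝ))) Filter.atTop

/-- **Automorphisms of `ℂ^d` with `λ₂ < λ₁²`: the dynamical degree `λ₁` is a weak Perron number of
degree at most `d - 1`.** -/
theorem result (d : ℕ) (hd : 2 ≤ d) (φ : MvPolynomial (Fin d) ℂ ≃ₐ[ℂ] MvPolynomial (Fin d) ℂ) :
    ∃ lam : ℝ, 1 ≤ lam ∧
      Filter.Tendsto
        (fun n : ℕ =>
          ((Finset.univ.sup (fun i : Fin d => ((φ ^ n) (MvPolynomial.X i)).totalDegree) : ℕ) : ℝ)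
            ^ ((1 : ℝ) / (n : ℝ)))
        Filter.atTop (nhds lam) ∧
      (dynDeg2 φ < ENNReal.ofReal (lam ^ 2) →
        IsIntegral ℤ lam ∧ (minpoly ℤ lam).natDegree ≤ d - 1 ∧
          ∀ μ : ℂ, Polynomial.aeval μ (minpoly ℤ lam) = 0 → ‖μ‖ ≤ lam) :=
  Pool.Agent.H17Dyn.small_second (χ := Complex.ofRealHom.toAddMonoidHom)
    Complex.ofReal_injective hd φ

end Pool.Agent.Results.MP_dae5d3_ag.SmallSecond
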